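import Mathlib

/-!
# A basic solution with prescribed sums

The proof is that of `Q189.Spencer.basic` (sums zero), for arbitrary sums.
-/

set_option autoImplicit false

open Finset

namespace Pool.Agent.Q109.VR

/-- a basic solution -/
theorem basic {n m : ℕ} (a : Fin n → Fin m → ℝ) (y : Fin n → ℝ) (hy : ∀ i, |y i| ≤ 1) :
    ∃ x : Fin n → ℝ, (∀ i, |x i| ≤ 1) ∧ (∀ k, ∑ i, x i * a i k = ∑ i, y i * a i k) ∧
      ∃ S : Finset (Fin n), S.card ≤ m ∧ ∀ i, i ∉ S → |x i| = 1 := by
  classical
  set P : Set (Fin n → ℝ) :=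
    {x | (∀ i, |x i| ≤ 1) ∧ ∀ k, ∑ i, x i * a i k = ∑ i, y i * a i k} with hP
  have hPc : IsCompact P := by
    have h1 : P ⊆ Set.Icc (fun _ => -1) (fun _ => 1) := fun x hx =>
      ⟨fun i => (abs_le.1 (hx.1 i)).1, fun i => (abs_le.1 (hx.1 i)).2⟩
    have h2 : IsClosed P := by
      have : P = (⋂ i, {x : Fin n → ℝ | |x i| ≤ 1}) ∩
          ⋂ k, {x : Fin n → ℝ | ∑ i, x i * a i k = ∑ i, y i * a i k} := by ext x; simp [hP]
      rw [this]
      exact (isClosed_iInter fun i => isClosed_le (by fun_prop) continuous_const).inter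
        (isClosed_iInter fun k => isClosed_eq (by fun_prop) continuous_const)
    exact isCompact_Icc.of_isClosed_subset h2 h1
  have hPn : P.Nonempty := ⟨y, hy, fun k => rfl⟩
  obtain ⟨x, hx⟩ := hPc.extremePoints_nonempty hPn
  refine ⟨x, hx.1.1, hx.1.2, univ.filter (fun i => |x i| ≠ 1), ?_, fun i hi => by simpa using hi⟩
  by_contra hcon
  push Not at hcon
  set S := univ.filter (fun i => |x i| ≠ 1) with hS
  -- a linear dependency
  have hdep : ∃ g : Fin n → ℝ, (∀ i, i ∉ S → g i = 0) ∧ (∀ k, ∑ i, g i * a i k = 0) ∧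
      ∃ i, g i ≠ 0 := by
    let f : (S → ℝ) →ₗ[ℝ] (Fin m → ℝ) :=
      { toFun := fun g k => ∑ i : S, g i * a i k
        map_add' := by
          intro g h
          funext k
          simp [add_mul, Finset.sum_add_distrib]
        map_smul' := by
          intro c g
          funext k
          simp [Finset.mul_sum, mul_assoc] }
    have hker : LinearMap.ker f ≠ ⊥ := LinearMap.ker_ne_bot_of_finrank_lt (by simpa using hcon)
    obtain ⟨g, hg, hg0⟩ := (Submodule.ne_bot_iff _).1 hker
    refine ⟨fun i => if h : i ∈ S then g ⟨i, h⟩ else 0, fun i hi => by simp [hi], ?_, ?_⟩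
    · intro k
      have h1 := congrFun (LinearMap.mem_ker.1 hg) k
      change ∑ i : S, g i * a i k = 0 at h1
      calc ∑ i, (if h : i ∈ S then g ⟨i, h⟩ else 0) * a i k
          = ∑ i ∈ S, (if h : i ∈ S then g ⟨i, h⟩ else 0) * a i k :=
            (Finset.sum_subset (Finset.subset_univ S) (fun i _ hi => by simp [hi])).symm
        _ = ∑ i : S, g i * a i k := by
            rw [← Finset.sum_coe_sort S]
            refine Finset.sum_congr rfl fun i _ => ?_
            simp
        _ = 0 := h1
    · by_contra hall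
      push Not at hall
      apply hg0
      funext i
      have := hall i
      simpa using this
  obtain ⟨g, hgS, hg1, i0, hgi0⟩ := hdep
  have hev : ∀ᶠ ε in nhds (0 : ℝ), ∀ i, |x i + ε * g i| ≤ 1 ∧ |x i - ε * g i| ≤ 1 := by
    rw [Filter.eventually_all]
    intro i
    by_cases hi : i ∈ S
    · have hlt : |x i| < 1 := lt_of_le_of_ne (hx.1.1 i) (Finset.mem_filter.1 hi).2
      have c1 : Filter.Tendsto (fun ε : ℝ => |x i + ε * g i|) (nhds 0) (nhds |x i|) := by
        have : Continuous fun ε : ℝ => |x i + ε * g i| := by fun_prop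
        simpa using this.tendsto 0
      have c2 : Filter.Tendsto (fun ε : ℝ => |x i - ε * g i|) (nhds 0) (nhds |x i|) := by
        have : Continuous fun ε : ℝ => |x i - ε * g i| := by fun_prop
        simpa using this.tendsto 0
      filter_upwards [c1.eventually (gt_mem_nhds hlt), c2.eventually (gt_mem_nhds hlt)] with ε h1 h2
      exact ⟨h1.le, h2.le⟩
    · refine Filter.Eventually.of_forall fun ε => ?_
      rw [hgS i hi]
      simpa using hx.1.1 i
  have hev2 : ∀ᶠ ε in nhdsWithin (0 : ℝ) {0}ᶜ, ∀ i, |x i + ε * g i| ≤ 1 ∧ |x i - ε * g i| ≤ 1 :=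
    hev.filter_mono nhdsWithin_le_nhds
  obtain ⟨ε, hε, hε0⟩ := (hev2.and self_mem_nhdsWithin).exists
  have hε0' : ε ≠ 0 := hε0
  have p1 : x + ε • g ∈ P := by
    refine ⟨fun i => (hε i).1, fun k => ?_⟩
    have : ∑ i, (x + ε • g) i * a i k = ∑ i, x i * a i k + ε * ∑ i, g i * a i k := by
      rw [Finset.mul_sum, ← Finset.sum_add_distrib]
      refine Finset.sum_congr rfl fun i _ => ?_
      simp only [Pi.add_apply, Pi.smul_apply, smul_eq_mul]; ring
    rw [this, hx.1.2 k, hg1 k]; simp
  have p2 : x - ε • g ∈ P := by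
    refine ⟨fun i => (hε i).2, fun k => ?_⟩
    have : ∑ i, (x - ε • g) i * a i k = ∑ i, x i * a i k - ε * ∑ i, g i * a i k := by
      rw [Finset.mul_sum, ← Finset.sum_sub_distrib]
      refine Finset.sum_congr rfl fun i _ => ?_
      simp only [Pi.sub_apply, Pi.smul_apply, smul_eq_mul]; ring
    rw [this, hx.1.2 k, hg1 k]; simp
  have hseg : x ∈ openSegment ℝ (x + ε • g) (x - ε • g) :=
    ⟨1 / 2, 1 / 2, by norm_num, by norm_num, by norm_num, by module⟩
  have := hx.2 p1 p2 hseg
  have h3 := congrFun this i0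
  simp only [Pi.add_apply, Pi.smul_apply, smul_eq_mul, add_eq_left, mul_eq_zero] at h3
  rcases h3 with h | h
  · exact hε0' h
  · exact hgi0 h

/-- the sign of a bit -/
noncomputable def sg (b : Bool) : ℝ := if b then 1 else -1

theorem sg_mul (b c : Bool) : sg b * sg c = 1 - 2 * (if b ≠ c then 1 else 0) := by
  unfold sg
  cases b <;> cases c <;> norm_num

theorem sum_sg {n : ℕ} (u v : Fin n → Bool) :
    ∑ i, sg (u i) * sg (v i) = n - 2 * (hammingDist u v : ℝ) := by
  simp only [sg_mul, Finset.sum_sub_distrib, ← Finset.mul_sum]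
  rw [Finset.sum_boole, hammingDist]
  simp

theorem hd_update {n : ℕ} (z f : Fin n → Bool) (i : Fin n) (b : Bool) :
    hammingDist (Function.update z i b) f ≤ hammingDist z f + 1 := by
  have h1 := hammingDist_triangle (Function.update z i b) z f
  have h2 : hammingDist (Function.update z i b) z ≤ 1 := by
    unfold hammingDist
    rw [Finset.card_le_one]
    intro x hx y hy
    rw [Finset.mem_filter] at hx hy
    have h3 : x = i := by
      by_contra h
      exact hx.2 (Function.update_of_ne h _ _)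
    have h4 : y = i := by
      by_contra h
      exact hy.2 (Function.update_of_ne h _ _)
    rw [h3, h4]
  omega

end Pool.Agent.Q109.VR
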